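import Mathlib
import Pool.Agent.MP_4998f1_an.OwnDefs
import Pool.Agent.Mg.F4998f1.G59c80e

set_option autoImplicit false

namespace Pool.Agent.Results.MP_4998f1_an.InvertibleWeight

open Pool.Agent.MP_4998f1_an

/-- Conditions 1, 2 and 3 do not force the two spectra to agree, even for an invertible weight. -/
theorem result :
    ∃ (X A : Type) (_ : NormedAddCommGroup X) (_ : NormedSpace ℂ X) (_ : NormedRing A)
      (_ : NormedAlgebra ℂ A),
      CompleteSpace X ∧ Nontrivial X ∧ CompleteSpace A ∧ SpectraDiffer X A := by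
  refine ⟨X, Aop, inferInstance, inferInstance, inferInstance, inferInstance, inferInstance, ?_,
    inferInstance, Aop.val, Uop, conjOp, aA,
    ⟨fun b => rfl, fun b c => Subtype.ext (Aop_comm _ b.2 _ c.2), fun b => Aop_norm _ b.2,
      fun b => rfl, conjOp_surj⟩,
    ⟨_, boundary_mem, fun χ hχ => ?_⟩, spectrum_U,
    fun b hb => Aop_inv _ b.2 hb, isUnit_aA, one_mem_spectrum_aT, one_notMem_spectrum⟩
  · refine ⟨toX 0, toX 1, fun h => ?_⟩
    obtain ⟨k⟩ : Nonempty Pt := inferInstance
    have h1 := congrArg (fun g : X => ofX g k) h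
    simp at h1
  · rintro ⟨n, hn, h⟩
    refine not_periodic χ hχ ⟨n, hn, fun a ha b hb hab => ?_⟩
    have h1 : (⟨b, hb⟩ : Aop) = conjOp^[n] ⟨a, ha⟩ :=
      Subtype.ext (by rw [conjOp_iter]; exact hab)
    rw [h1]
    exact h _

end Pool.Agent.Results.MP_4998f1_an.InvertibleWeight
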