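import Mathlib
import Pool.Agent.MP_4998f1_an.PairDefs
import Pool.Agent.MP_4998f1_an.ClsCons

set_option autoImplicit false

namespace Pool.Agent.Results.MP_4998f1_an.SpectralPairs

open Pool.Agent.MP_4998f1_an

/-- The pairs of spectra that occur under conditions 1, 2 and 3. -/
theorem result (S S' : Set ℂ) :
    (∃ (X A : Type) (_ : NormedAddCommGroup X) (_ : NormedSpace ℂ X) (_ : NormedRing A)
      (_ : NormedAlgebra ℂ A), CompleteSpace X ∧ CompleteSpace A ∧ HasSpectra X A S S') ↔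
    IsCompact S ∧ S' = {μ | ∃ ν ∈ S, ‖ν‖ = ‖μ‖} ∧ frontier S' ⊆ S := by
  constructor
  · rintro ⟨X, A, _, _, iA, _, _, _, ι, U, T, a, hs, hm, hU, hinv, rfl, rfl⟩
    let iC : NormedCommRing A := { iA with mul_comm := hs.comm }
    exact ⟨spectrum.isCompact _, Cls.necessity hs hm hU hinv a⟩
  · rintro ⟨hS, rfl, hf⟩
    obtain ⟨X, A, i1, i2, i3, iA, i4, i5, ι, U, T, a, hs, hm, hU, hinv, he⟩ := Cls.sufficiency hS hf
    refine ⟨X, A, i1, i2, iA, i4, i3, i5, ι, U, T, a, hs, hm, hU, hinv, he, ?_⟩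
    let iC : NormedCommRing A := { iA with mul_comm := hs.comm }
    rw [← he]
    exact (Cls.necessity hs hm hU hinv a).1

end Pool.Agent.Results.MP_4998f1_an.SpectralPairs
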